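import Pool.Agent.helper62.RP.Spec

/-!
# Strong convergence (MP_07c750_an): row FRM
-/

set_option autoImplicit false

namespace Pool.Agent.RP

/-- FRM -/
theorem FRM (h1 : TRJ_stmt) (h2 : CTT_stmt) (h3 : KRN_stmt) (h4 : KIV_stmt) : FRM_stmt := by
  intro n N _ w
  have e1 : ∑ σ : Fin 2 → Equiv.Perm (Fin N), fx (FreeGroup.lift σ (FreeGroup.mk (List.ofFn w))) =
      ∑ σ : Fin 2 → Equiv.Perm (Fin N),
        (Finset.univ.filter (fun t : Fin n → Fin N => ∀ i, t i = sg σ (w i) (t (i + 1)))).card :=
    Finset.sum_congr rfl (fun σ _ => h1 n N w σ)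
  have e2 : ∑ σ : Fin 2 → Equiv.Perm (Fin N),
        (Finset.univ.filter (fun t : Fin n → Fin N => ∀ i, t i = sg σ (w i) (t (i + 1)))).card =
      ∑ t : Fin n → Fin N,
        (Finset.univ.filter (fun σ : Fin 2 → Equiv.Perm (Fin N) => ∀ i, t i = sg σ (w i) (t (i + 1)))).card := by
    simp only [Finset.card_filter]
    exact Finset.sum_comm
  have e3 : ∑ t : Fin n → Fin N,
        (Finset.univ.filter (fun σ : Fin 2 → Equiv.Perm (Fin N) => ∀ i, t i = sg σ (w i) (t (i + 1)))).card =
      ∑ t : Fin n → Fin N, (if Con w t then ∏ x, (N - nex w t x).factorial else 0) :=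
    Finset.sum_congr rfl (fun t _ => h2 n N w t)
  rw [e1, e2, e3, h3 n N (fun t => if Con w t then ∏ x, (N - nex w t x).factorial else 0)
    (fun c => if Con w c then ∏ x, (N - nex w c x).factorial else 0) ?_]
  · rw [← Finset.filter_filter, Finset.sum_filter (p := fun c => Con w c)]
    refine Finset.sum_congr rfl (fun c _ => ?_)
    by_cases hc : Con w c
    · simp only [hc, if_true]
    · simp only [hc, if_false, mul_zero]
  · intro t c _ hk
    obtain ⟨k1, k2, _⟩ := h4 n (Fin N) (Fin n) w t c hk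
    by_cases hc : Con w c
    · have ht : Con w t := k1.mpr hc
      simp only [hc, ht, if_true, k2]
    · have ht : ¬ Con w t := fun h => hc (k1.mp h)
      simp only [hc, ht, if_false]

end Pool.Agent.RP
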